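import Pool.Agent.H92.SG.Stmts

/-! # Board sg7, row SL: stabilisation on the left -/

set_option autoImplicit false

namespace Pool.Agent.H11.SG

open Pool.Agent.H92.SG

/-- `dd n = σ 0 ⋯ σ (n - 1)` -/
def dd : ℕ → B
  | 0 => 1
  | k + 1 => dd k * σ k

theorem dd_mem (n : ℕ) : dd n ∈ Bn (n + 1) := by
  induction n with
  | zero => exact one_mem _
  | succ k ih =>
    exact mul_mem (Bn_mono (Nat.le_succ _) ih) (σ_mem_Bn (by omega))

theorem dd_comm (k j : ℕ) (h : j + 1 ≤ k) : σ k * dd j = dd j * σ k := by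
  induction j with
  | zero => rw [dd, mul_one, one_mul]
  | succ j ih =>
    rw [dd, ← mul_assoc, ih (by omega), mul_assoc, mul_assoc, σ_comm (i := j) (j := k) (by omega)]

theorem dd_σ (n i : ℕ) (h : i + 1 < n) : σ (i + 1) * dd n = dd n * σ i := by
  induction n with
  | zero => omega
  | succ k ih =>
    by_cases hk : i + 1 < k
    · rw [dd, ← mul_assoc, ih hk, mul_assoc, mul_assoc, σ_comm (i := i) (j := k) (by omega)]
    · obtain rfl : k = i + 1 := by omega
      rw [dd, dd, ← mul_assoc, ← mul_assoc, dd_comm (i + 1) i (le_refl _), mul_assoc, mul_assoc,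
        mul_assoc, mul_assoc, ← mul_assoc (σ (i + 1)), ← σ_braid, mul_assoc]

theorem sh_dd (n : ℕ) {β : B} (hβ : β ∈ Bn n) : sh β * dd n = dd n * β := by
  refine Bn_induction (n := n) (p := fun β => sh β * dd n = dd n * β) ?_ ?_ ?_ ?_ hβ
  · show sh 1 * dd n = dd n * 1
    rw [map_one, one_mul, mul_one]
  · intro i hi
    show sh (σ i) * dd n = dd n * σ i
    rw [sh_σ, dd_σ n i hi]
  · intro x _ y _ hx hy
    show sh (x * y) * dd n = dd n * (x * y)
    rw [map_mul, mul_assoc, hy, ← mul_assoc, hx, mul_assoc]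
  · intro x _ hx
    show sh x⁻¹ * dd n = dd n * x⁻¹
    rw [map_inv, inv_mul_eq_iff_eq_mul, ← mul_assoc, hx, mul_assoc, mul_inv_cancel, mul_one]

theorem perm_dd (n : ℕ) : perm (dd n) n = 0 := by
  induction n with
  | zero => rw [dd, map_one]; rfl
  | succ k ih =>
    rw [dd, map_mul, perm_σ, Equiv.Perm.mul_apply, Equiv.swap_apply_right, ih]

theorem isBand_conj {n : ℕ} {b g : B} (hb : IsBand n b) (hg : g ∈ Bn n) :
    IsBand n (g⁻¹ * b * g) := by
  obtain ⟨w, hw, i, hi, h | h⟩ := hb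
  · exact ⟨g⁻¹ * w, mul_mem (inv_mem hg) hw, i, hi, Or.inl (by rw [h]; group)⟩
  · exact ⟨g⁻¹ * w, mul_mem (inv_mem hg) hw, i, hi, Or.inr (by rw [h]; group)⟩

theorem SL_thm (hSC : SurfConjStmt) (hSS : SurfStabStmt) : SurfLStabStmt := by
  intro n β b e hn hβ hb hp
  have hd := dd_mem n
  have hb' := isBand_conj hb hd
  have hp' : perm ((dd n)⁻¹ * b * dd n) n ≠ n := by
    rw [map_mul, map_mul, map_inv, Equiv.Perm.mul_apply, Equiv.Perm.mul_apply, perm_dd]
    intro h
    rw [Equiv.Perm.inv_eq_iff_eq, perm_dd] at h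
    exact hp h
  rw [hSS n β _ e hn hβ hb' hp']
  have e1 : sh β * b = dd n * (β * ((dd n)⁻¹ * b * dd n)) * (dd n)⁻¹ := by
    have h1 : sh β = dd n * β * (dd n)⁻¹ := by rw [← sh_dd n hβ]; group
    rw [h1]
    group
  constructor
  · intro h
    rw [e1]
    exact hSC _ _ _ _ hd h
  · intro h
    rw [e1] at h
    have h2 := hSC _ _ _ _ (inv_mem hd) h
    have e2 : (dd n)⁻¹ * (dd n * (β * ((dd n)⁻¹ * b * dd n)) * (dd n)⁻¹) * (dd n)⁻¹⁻¹ =
        β * ((dd n)⁻¹ * b * dd n) := by group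
    rwa [e2] at h2

end Pool.Agent.H11.SG

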